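import Pool.Agent.Helper58.SF.StS

/-!
# Project SF, module CHT: the chart from a continuous family of discs
-/

set_option autoImplicit false

namespace Pool.Agent.Helper51.SF

open Set Topology Pool.Agent.Helper58.SF

/-- CHT.  The chart from a continuous family of discs. -/
theorem hCHT : StCHT := by
  intro P _ G D j Θ uu hG huu hΘ hu hy hD
  have hζ : ∀ y ∈ G, ∃ z ∈ Metric.ball (0 : ℂ) 1, Θ (uu y, z) = y := by
    intro y hyG
    obtain ⟨h1, h2, h3⟩ := hy y hyG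
    obtain ⟨hi, him, hb⟩ := hu (uu y) ⟨h1.1.le, h1.2⟩
    rw [← him] at h2
    obtain ⟨z, hz, hzy⟩ := h2
    refine ⟨z, ?_, hzy⟩
    rcases (Metric.mem_closedBall.1 hz).lt_or_eq with h | h
    · exact Metric.mem_ball.2 h
    · exact absurd ⟨z, Metric.mem_sphere.2 h, (hb z (Metric.mem_sphere.2 h)).symm.trans hzy⟩ h3
  choose! ζ hζb hζe using hζ
  have huniq : ∀ u ∈ Ioo (0 : ℝ) 1, ∀ z ∈ Metric.closedBall (0 : ℂ) 1, Θ (u, z) ∈ G →
      uu (Θ (u, z)) = u ∧ ζ (Θ (u, z)) = z := by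
    intro u hu1 z hz hzG
    obtain ⟨hi, him, hb⟩ := hu u ⟨hu1.1.le, hu1.2⟩
    have hmem : Θ (u, z) ∈ D u := by
      rw [← him]
      exact ⟨z, hz, rfl⟩
    have h1 : uu (Θ (u, z)) = u := hD u hu1 _ ⟨hmem, hzG⟩
    refine ⟨h1, hi (Metric.ball_subset_closedBall (hζb _ hzG)) hz ?_⟩
    have h2 := hζe _ hzG
    rw [h1] at h2
    exact h2
  have hζc : ContinuousOn ζ G := by
    intro y₀ hy₀
    refine (isCompact_closedBall (0 : ℂ) 1).tendsto_nhds_of_unique_mapClusterPt ?_ ?_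
    · filter_upwards [self_mem_nhdsWithin] with y hyG
      exact Metric.ball_subset_closedBall (hζb y hyG)
    · intro z' hz' hcl
      obtain ⟨U, hU, hUz⟩ := mapClusterPt_iff_ultrafilter.1 hcl
      obtain ⟨h1, h2, h3⟩ := hy y₀ hy₀
      obtain ⟨hi, him, hb⟩ := hu (uu y₀) ⟨h1.1.le, h1.2⟩
      have hGU : ∀ᶠ y in (U : Filter P), y ∈ G := hU self_mem_nhdsWithin
      have ht1 : Filter.Tendsto uu U (𝓝 (uu y₀)) := (huu y₀ hy₀).mono_left hU
      have ht2 : Filter.Tendsto (fun y => (uu y, ζ y)) U (𝓝[Ico 0 1 ×ˢ Metric.closedBall 0 1] (uu y₀, z')) := by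
        refine tendsto_nhdsWithin_iff.2 ⟨ht1.prodMk_nhds hUz, ?_⟩
        filter_upwards [hGU] with y hyG
        exact ⟨⟨(hy y hyG).1.1.le, (hy y hyG).1.2⟩, Metric.ball_subset_closedBall (hζb y hyG)⟩
      have ht3 : Filter.Tendsto (fun y => Θ (uu y, ζ y)) U (𝓝 (Θ (uu y₀, z'))) :=
        (hΘ (uu y₀, z') ⟨⟨h1.1.le, h1.2⟩, hz'⟩).tendsto.comp ht2
      have ht4 : Filter.Tendsto (fun y => Θ (uu y, ζ y)) U (𝓝 y₀) := by
        have hid : Filter.Tendsto (fun y : P => y) U (𝓝 y₀) := hU.trans nhdsWithin_le_nhds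
        refine hid.congr' ?_
        filter_upwards [hGU] with y hyG
        exact (hζe y hyG).symm
      have heq : Θ (uu y₀, z') = y₀ := tendsto_nhds_unique ht3 ht4
      exact hi hz' (Metric.ball_subset_closedBall (hζb y₀ hy₀)) (heq.trans (hζe y₀ hy₀).symm)
  have hW : IsOpen (Ioo (0 : ℝ) 1 ×ˢ Metric.ball (0 : ℂ) 1) := isOpen_Ioo.prod Metric.isOpen_ball
  have hΘW : ContinuousOn Θ (Ioo (0 : ℝ) 1 ×ˢ Metric.ball (0 : ℂ) 1) :=
    hΘ.mono (prod_mono Ioo_subset_Ico_self Metric.ball_subset_closedBall)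
  have hf : IsOpenEmbedding (fun y : ↥G => ((uu y, ζ y) : ℝ × ℂ)) := by
    refine IsOpenEmbedding.of_continuous_injective_isOpenMap ?_ ?_ ?_
    · exact (huu.domRestrict).prodMk (hζc.domRestrict)
    · intro y y' hyy
      simp only [Prod.mk.injEq] at hyy
      refine Subtype.ext ?_
      rw [← hζe y y.2, ← hζe y' y'.2, hyy.1, hyy.2]
    · intro U hUo
      obtain ⟨V, hV, rfl⟩ := isOpen_induced_iff.1 hUo
      have himg : (fun y : ↥G => ((uu y, ζ y) : ℝ × ℂ)) '' (Subtype.val ⁻¹' V) =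
          (Ioo (0 : ℝ) 1 ×ˢ Metric.ball (0 : ℂ) 1) ∩ Θ ⁻¹' (V ∩ G) := by
        ext ⟨u, z⟩
        constructor
        · rintro ⟨y, hyV, hyy⟩
          simp only [Prod.mk.injEq] at hyy
          obtain ⟨e1, e2⟩ := hyy
          subst e1 e2
          refine ⟨⟨(hy y y.2).1, hζb y y.2⟩, ?_⟩
          simp only [mem_preimage]
          rw [hζe y y.2]
          exact ⟨hyV, y.2⟩
        · rintro ⟨⟨h1, h2⟩, h3, h4⟩
          obtain ⟨e1, e2⟩ := huniq u h1 z (Metric.ball_subset_closedBall h2) h4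
          exact ⟨⟨Θ (u, z), h4⟩, h3, Prod.ext e1 e2⟩
      rw [himg]
      exact hΘW.isOpen_inter_preimage hW (hV.inter hG)
  exact ⟨_, (((Homeomorph.refl ℝ).prodCongr Complex.equivRealProdCLM.toHomeomorph).isOpenEmbedding).comp hf⟩

end Pool.Agent.Helper51.SF
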